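import Pool.Agent.NE.Stmts
import Pool.Agent.Helper36_BC.Cur

/-!
# NE, module CRV: the curve
-/

set_option autoImplicit false

open Finset Filter Topology MeasureTheory

noncomputable section

namespace Pool.Agent.NE.H65

/-- the left end points of the intervals of the leaves -/
def al (σ : ℕ → ℕ) (w : ℕ → ℕ → ℝ) (n : ℕ) : ℝ :=
  if h : 1 ≤ n ∧ σ n < n then al σ w (σ n) + w (n + 1) (σ n) else 0
termination_by n
decreasing_by exact h.2

/-- the truncation to `[0, h]` -/
def cp (h y : ℝ) : ℝ := max 0 (min y h)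

theorem cp_nonpos {h y : ℝ} (hy : y ≤ 0) : cp h y = 0 := by
  unfold cp
  exact max_eq_left ((min_le_left _ _).trans hy)

theorem cp_ge {h y : ℝ} (hh : 0 ≤ h) (hy : h ≤ y) : cp h y = h := by
  unfold cp
  rw [min_eq_right hy, max_eq_right hh]

theorem cp_add {a b : ℝ} (ha : 0 ≤ a) (hb : 0 ≤ b) (y : ℝ) :
    cp (a + b) y = cp a y + cp b (y - a) := by
  rcases le_total y 0 with h | h
  · rw [cp_nonpos h, cp_nonpos h, cp_nonpos (by linarith), add_zero]
  · rcases le_total y a with h1 | h1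
    · rw [cp_nonpos (by linarith : y - a ≤ 0), add_zero]
      unfold cp
      rw [min_eq_left h1, min_eq_left (by linarith)]
    · rw [cp_ge ha h1]
      unfold cp
      rcases le_total y (a + b) with h2 | h2
      · rw [min_eq_left h2, min_eq_left (by linarith), max_eq_right h, max_eq_right (by linarith)]
        ring
      · rw [min_eq_right h2, min_eq_right (by linarith), max_eq_right hb,
          max_eq_right (by linarith)]

theorem cp_mono (h : ℝ) {y z : ℝ} (hyz : y ≤ z) : cp h y ≤ cp h z := by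
  unfold cp
  exact max_le_max le_rfl (min_le_min hyz le_rfl)

theorem cp_lip {y z : ℝ} (hyz : y ≤ z) : cp 1 z - cp 1 y ≤ z - y := by
  unfold cp
  rcases le_total y 1 with h1 | h1 <;> rcases le_total z 1 with h2 | h2 <;>
    rcases le_total y 0 with h3 | h3 <;> rcases le_total z 0 with h4 | h4 <;>
    simp only [min_eq_left, min_eq_right, max_eq_left, max_eq_right, h1, h2, h3, h4,
      zero_le_one] <;> linarith

theorem sum_step {V : Type} [AddCommGroup V] (A B : ℕ → V) (n s : ℕ) (hs : s < n)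
    (h : ∀ i, i < n → i ≠ s → A i = B i) :
    ∑ i ∈ range (n + 1), A i = ∑ i ∈ range n, B i + (A s + A n - B s) := by
  rw [sum_range_succ, ← Finset.add_sum_erase (range n) A (mem_range.2 hs),
    ← Finset.add_sum_erase (range n) B (mem_range.2 hs)]
  have : ∑ i ∈ (range n).erase s, A i = ∑ i ∈ (range n).erase s, B i := by
    refine sum_congr rfl fun i hi => ?_
    rw [mem_erase, mem_range] at hi
    exact h i hi.2 hi.1
  rw [this]
  abel

section

variable {X : Type} [NormedAddCommGroup X] [NormedSpace ℝ X] {σ : ℕ → ℕ} {w : ℕ → ℕ → ℝ}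
  {Y : ℕ → ℕ → X} {M : ℝ}

theorem al_zero (σ : ℕ → ℕ) (w : ℕ → ℕ → ℝ) : al σ w 0 = 0 := by
  rw [al]
  simp

theorem al_succ (hB : Bin σ w Y M) {n : ℕ} (hn : 1 ≤ n) :
    al σ w n = al σ w (σ n) + w (n + 1) (σ n) := by
  conv_lhs => rw [al]
  rw [dif_pos ⟨hn, hB.lt n hn⟩]

/-- the approximations of the curve -/
def gg (σ : ℕ → ℕ) (w : ℕ → ℕ → ℝ) (Y : ℕ → ℕ → X) (n : ℕ) (x : ℝ) : X :=
  ∑ i ∈ range n, cp (w n i) (x - al σ w i) • Y n i

theorem w2' (hB : Bin σ w Y M) {n : ℕ} (hn : 1 ≤ n) :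
    0 < w (n + 1) (σ n) ∧ 0 < w (n + 1) n ∧ w (n + 1) (σ n) ≤ w n (σ n) := by
  have h1 := hB.pos (n + 1) (σ n) ((hB.lt n hn).trans (Nat.lt_succ_self n))
  have h2 := hB.pos (n + 1) n (Nat.lt_succ_self n)
  have h3 := hB.w2 n hn
  exact ⟨h1, h2, by linarith⟩

theorem sum_cp (hB : Bin σ w Y M) (x : ℝ) (n : ℕ) (hn : 1 ≤ n) :
    ∑ i ∈ range n, cp (w n i) (x - al σ w i) = cp 1 x := by
  induction n, hn using Nat.le_induction with
  | base => simp [al_zero, hB.one]
  | succ n hn ih =>
    obtain ⟨h1, h2, -⟩ := w2' hB hn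
    rw [sum_step (fun i => cp (w (n + 1) i) (x - al σ w i)) (fun i => cp (w n i) (x - al σ w i)) n
      (σ n) (hB.lt n hn), ih]
    · rw [hB.w2 n hn, cp_add h1.le h2.le, al_succ hB hn]
      have : x - (al σ w (σ n) + w (n + 1) (σ n)) = x - al σ w (σ n) - w (n + 1) (σ n) := by ring
      rw [this]
      ring
    · intro i hi his
      rw [hB.w1 n i hi his]

/-- points which are not inside an interval of the time `n` -/
def Gd (σ : ℕ → ℕ) (w : ℕ → ℕ → ℝ) (n : ℕ) (x : ℝ) : Prop :=
  ∀ j, j < n → x ≤ al σ w j ∨ al σ w j + w n j ≤ x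

theorem gd_succ (hB : Bin σ w Y M) {n : ℕ} (hn : 1 ≤ n) {x : ℝ} (hx : Gd σ w n x) :
    Gd σ w (n + 1) x := by
  obtain ⟨h1, h2, h3⟩ := w2' hB hn
  intro j hj
  rcases Nat.lt_succ_iff_lt_or_eq.1 hj with h | h
  · by_cases hjs : j = σ n
    · rw [hjs]
      rcases hx (σ n) (hB.lt n hn) with h4 | h4
      · exact Or.inl h4
      · exact Or.inr (by linarith)
    · rw [hB.w1 n j h hjs]
      exact hx j h
  · rw [h, al_succ hB hn]
    rcases hx (σ n) (hB.lt n hn) with h4 | h4
    · exact Or.inl (by linarith)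
    · have := hB.w2 n hn
      exact Or.inr (by linarith)

theorem gd_mono (hB : Bin σ w Y M) {n v : ℕ} (hn : 1 ≤ n) (hv : n ≤ v) {x : ℝ}
    (hx : Gd σ w n x) : Gd σ w v x := by
  induction v, hv using Nat.le_induction with
  | base => exact hx
  | succ v hv ih => exact gd_succ hB (hn.trans hv) ih

/-- the intervals of a time are disjoint -/
theorem disj (hB : Bin σ w Y M) (n : ℕ) (hn : 1 ≤ n) : ∀ i j, i < n → j < n → i ≠ j →
    al σ w i + w n i ≤ al σ w j ∨ al σ w j + w n j ≤ al σ w i := by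
  induction n, hn using Nat.le_induction with
  | base =>
    intro i j hi hj hij
    omega
  | succ n hn ih =>
    obtain ⟨h1, h2, h3⟩ := w2' hB hn
    have h4 := hB.w2 n hn
    have h5 := al_succ hB hn
    have h6 := hB.lt n hn
    -- the interval of a leaf `j < n` at the time `n + 1` is contained in the one at the time `n`
    have hsub : ∀ j, j < n → w (n + 1) j ≤ w n j := by
      intro j hj
      by_cases hjs : j = σ n
      · rw [hjs]
        exact h3
      · rw [hB.w1 n j hj hjs]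
    have hlast : ∀ j, j < n → al σ w n + w (n + 1) n ≤ al σ w j ∨
        al σ w j + w (n + 1) j ≤ al σ w n := by
      intro j hj
      by_cases hjs : j = σ n
      · rw [hjs]
        exact Or.inr (by linarith)
      · rcases ih (σ n) j h6 hj (Ne.symm hjs) with h | h
        · exact Or.inl (by linarith)
        · rw [hB.w1 n j hj hjs]
          exact Or.inr (by linarith)
    intro i j hi hj hij
    rcases Nat.lt_succ_iff_lt_or_eq.1 hi with hi' | hi' <;>
      rcases Nat.lt_succ_iff_lt_or_eq.1 hj with hj' | hj'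
    · rcases ih i j hi' hj' hij with h | h
      · have := hsub i hi'
        exact Or.inl (by linarith)
      · have := hsub j hj'
        exact Or.inr (by linarith)
    · rw [hj']
      exact (hlast i hi').symm
    · rw [hi']
      exact hlast j hj'
    · omega

theorem gd_left (hB : Bin σ w Y M) {n : ℕ} (hn : 1 ≤ n) {i : ℕ} (hi : i < n) :
    Gd σ w n (al σ w i) := by
  intro j hj
  by_cases hij : i = j
  · rw [hij]
    exact Or.inl le_rfl
  · rcases disj hB n hn i j hi hj hij with h | h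
    · have := hB.pos n i hi
      exact Or.inl (by linarith)
    · exact Or.inr h

theorem gd_right (hB : Bin σ w Y M) {n : ℕ} (hn : 1 ≤ n) {i : ℕ} (hi : i < n) :
    Gd σ w n (al σ w i + w n i) := by
  intro j hj
  by_cases hij : i = j
  · rw [hij]
    exact Or.inr le_rfl
  · rcases disj hB n hn i j hi hj hij with h | h
    · exact Or.inl h
    · have := hB.pos n i hi
      exact Or.inr (by linarith)

theorem gg_succ (hB : Bin σ w Y M) {n : ℕ} (hn : 1 ≤ n) {x : ℝ} (hx : Gd σ w n x) :
    gg σ w Y (n + 1) x = gg σ w Y n x := by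
  obtain ⟨h1, h2, h3⟩ := w2' hB hn
  have h4 := hB.w2 n hn
  have h5 := al_succ hB hn
  unfold gg
  rw [sum_step (fun i => cp (w (n + 1) i) (x - al σ w i) • Y (n + 1) i)
    (fun i => cp (w n i) (x - al σ w i) • Y n i) n (σ n) (hB.lt n hn)]
  · rw [add_eq_left, sub_eq_zero]
    rcases hx (σ n) (hB.lt n hn) with h | h
    · rw [cp_nonpos (by linarith : x - al σ w (σ n) ≤ 0),
        cp_nonpos (by linarith : x - al σ w n ≤ 0), cp_nonpos (by linarith), zero_smul, zero_smul,
        zero_smul, add_zero]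
    · rw [cp_ge h1.le (by linarith), cp_ge h2.le (by linarith),
        cp_ge (by linarith) (by linarith)]
      exact (hB.y2 n hn).symm
  · intro i hi his
    rw [hB.w1 n i hi his, hB.y1 n i hi his]

theorem gg_gd (hB : Bin σ w Y M) {n v : ℕ} (hn : 1 ≤ n) (hv : n ≤ v) {x : ℝ}
    (hx : Gd σ w n x) : gg σ w Y v x = gg σ w Y n x := by
  induction v, hv using Nat.le_induction with
  | base => rfl
  | succ v hv ih => rw [gg_succ hB (hn.trans hv) (gd_mono hB hn hv hx), ih]

theorem gg_lip (hB : Bin σ w Y M) {n : ℕ} (hn : 1 ≤ n) {x y : ℝ} (hxy : x ≤ y) :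
    ‖gg σ w Y n y - gg σ w Y n x‖ ≤ M * (y - x) := by
  have hM : 0 ≤ M := (norm_nonneg _).trans (hB.bdd 1 0 Nat.one_pos)
  unfold gg
  rw [← sum_sub_distrib]
  have h1 : ∀ i ∈ range n, ‖cp (w n i) (y - al σ w i) • Y n i - cp (w n i) (x - al σ w i) • Y n i‖
      ≤ (cp (w n i) (y - al σ w i) - cp (w n i) (x - al σ w i)) * M := by
    intro i hi
    have h2 := cp_mono (w n i) (by linarith : x - al σ w i ≤ y - al σ w i)
    rw [← sub_smul, norm_smul, Real.norm_of_nonneg (by linarith)]
    exact mul_le_mul_of_nonneg_left (hB.bdd n i (mem_range.1 hi)) (by linarith)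
  refine (norm_sum_le_of_le _ h1).trans ?_
  rw [← sum_mul, sum_sub_distrib, sum_cp hB y n hn, sum_cp hB x n hn, mul_comm]
  exact mul_le_mul_of_nonneg_left (cp_lip hxy) hM

theorem gg_diff (hB : Bin σ w Y M) {n : ℕ} (hn : 1 ≤ n) {i : ℕ} (hi : i < n) :
    gg σ w Y n (al σ w i + w n i) - gg σ w Y n (al σ w i) = w n i • Y n i := by
  unfold gg
  rw [← sum_sub_distrib, Finset.sum_eq_single i]
  · have h1 := (hB.pos n i hi).le
    rw [cp_ge h1 (by linarith), cp_nonpos (by linarith), zero_smul, sub_zero]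
  · intro j hj hji
    rw [mem_range] at hj
    have h1 := (hB.pos n j hj).le
    have h2 := (hB.pos n i hi).le
    rcases disj hB n hn i j hi hj (Ne.symm hji) with h | h
    · rw [cp_nonpos (by linarith : al σ w i + w n i - al σ w j ≤ 0), cp_nonpos (by linarith),
        sub_self]
    · rw [cp_ge h1 (by linarith), cp_ge h1 (by linarith), sub_self]
  · intro h
    exact absurd (mem_range.2 hi) h

open Classical in
/-- the path of a point -/
def pt (σ : ℕ → ℕ) (w : ℕ → ℕ → ℝ) (x : ℝ) : ℕ → ℕ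
  | 0 => 0
  | 1 => 0
  | n + 2 => if pt σ w x (n + 1) = σ (n + 1) ∧ al σ w (n + 1) ≤ x then n + 1
      else pt σ w x (n + 1)

theorem pt_succ (x : ℝ) {n : ℕ} (hn : 1 ≤ n) :
    (pt σ w x n = σ n ∧ al σ w n ≤ x ∧ pt σ w x (n + 1) = n) ∨
      (¬ (pt σ w x n = σ n ∧ al σ w n ≤ x) ∧ pt σ w x (n + 1) = pt σ w x n) := by
  obtain ⟨m, rfl⟩ : ∃ m, n = m + 1 := ⟨n - 1, by omega⟩
  by_cases h : pt σ w x (m + 1) = σ (m + 1) ∧ al σ w (m + 1) ≤ x
  · left
    refine ⟨h.1, h.2, ?_⟩
    rw [pt, if_pos h]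
  · right
    refine ⟨h, ?_⟩
    rw [pt, if_neg h]

theorem pt_lt (x : ℝ) {n : ℕ} (hn : 1 ≤ n) : pt σ w x n < n := by
  induction n, hn using Nat.le_induction with
  | base => simp [pt]
  | succ n hn ih =>
    rcases pt_succ (σ := σ) (w := w) x hn with ⟨-, -, h⟩ | ⟨-, h⟩ <;> omega

theorem pt_path (x : ℝ) : Path σ (pt σ w x) := by
  intro n hn
  refine ⟨pt_lt x hn, ?_⟩
  rcases pt_succ (σ := σ) (w := w) x hn with ⟨h1, -, h⟩ | ⟨-, h⟩
  · exact Or.inr ⟨h1, h⟩
  · exact Or.inl h

theorem pt_mem (hB : Bin σ w Y M) {x : ℝ} (h0 : 0 ≤ x) (h1 : x < 1) {n : ℕ} (hn : 1 ≤ n) :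
    al σ w (pt σ w x n) ≤ x ∧ x < al σ w (pt σ w x n) + w n (pt σ w x n) := by
  induction n, hn using Nat.le_induction with
  | base => simp [pt, al_zero, hB.one, h0, h1]
  | succ n hn ih =>
    have h5 := al_succ hB hn
    rcases pt_succ (σ := σ) (w := w) x hn with ⟨h2, h3, h⟩ | ⟨h2, h⟩
    · rw [h]
      rw [h2] at ih
      have h4 := hB.w2 n hn
      exact ⟨h3, by linarith⟩
    · rw [h]
      refine ⟨ih.1, ?_⟩
      by_cases h3 : pt σ w x n = σ n
      · rw [h3]
        have h4 : ¬ al σ w n ≤ x := fun h4 => h2 ⟨h3, h4⟩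
        push Not at h4
        linarith
      · rw [hB.w1 n _ (pt_lt x hn) h3]
        exact ih.2

/-- the lengths tend to zero -/
theorem path_len (hB : Bin σ w Y M) (i : ℕ → ℕ) (hi : Path σ i)
    (hc : ¬ CauchySeq fun n => Y n (i n)) : Tendsto (fun n => w n (i n)) atTop (𝓝 0) := by
  have hM : 0 ≤ M := (norm_nonneg _).trans (hB.bdd 1 0 Nat.one_pos)
  -- the lengths decrease
  have hstep : ∀ n, 1 ≤ n → w (n + 1) (i (n + 1)) ≤ w n (i n) ∧
      ‖w n (i n) • Y n (i n) - w (n + 1) (i (n + 1)) • Y (n + 1) (i (n + 1))‖ ≤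
        M * (w n (i n) - w (n + 1) (i (n + 1))) := by
    intro n hn
    obtain ⟨h1, h2, h3⟩ := w2' hB hn
    have h4 := hB.w2 n hn
    obtain ⟨h5, h6⟩ := hi n hn
    rcases h6 with h6 | ⟨h6, h7⟩
    · rw [h6]
      by_cases hs : i n = σ n
      · rw [hs, hB.y2 n hn]
        refine ⟨h3, ?_⟩
        rw [add_sub_cancel_left, norm_smul, Real.norm_of_nonneg h2.le, h4, add_sub_cancel_left,
          mul_comm]
        exact mul_le_mul_of_nonneg_right (hB.bdd (n + 1) n (Nat.lt_succ_self n)) h2.le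
      · rw [hB.w1 n _ h5 hs, hB.y1 n _ h5 hs]
        simp
    · rw [h7, h6, hB.y2 n hn]
      refine ⟨by linarith, ?_⟩
      rw [add_sub_cancel_right, norm_smul, Real.norm_of_nonneg h1.le, h4, add_sub_cancel_right,
        mul_comm]
      exact mul_le_mul_of_nonneg_right
        (hB.bdd (n + 1) (σ n) ((hB.lt n hn).trans (Nat.lt_succ_self n))) h1.le
  have hanti : Antitone fun n => w (n + 1) (i (n + 1)) :=
    antitone_nat_of_succ_le fun n => (hstep (n + 1) (by omega)).1
  have hpos : ∀ n, 0 < w (n + 1) (i (n + 1)) := fun n => hB.pos _ _ (hi (n + 1) (by omega)).1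
  have hbb : BddBelow (Set.range fun n => w (n + 1) (i (n + 1))) :=
    ⟨0, by rintro _ ⟨n, rfl⟩; exact (hpos n).le⟩
  have hlim := tendsto_atTop_ciInf hanti hbb
  obtain ⟨ω, hω⟩ : ∃ ω, ω = ⨅ n, w (n + 1) (i (n + 1)) := ⟨_, rfl⟩
  rw [← hω] at hlim
  have hω0 : 0 ≤ ω := ge_of_tendsto' hlim fun n => (hpos n).le
  rcases hω0.eq_or_lt with h0 | h0
  · rw [← h0] at hlim
    exact (tendsto_add_atTop_iff_nat 1).1 hlim
  · exfalso
    apply hc
    -- `w n (i n) • Y n (i n)` is Cauchy
    have hC1 : CauchySeq fun n => w (n + 1) (i (n + 1)) • Y (n + 1) (i (n + 1)) := by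
      have hsum : ∀ n m, n ≤ m → ‖w (n + 1) (i (n + 1)) • Y (n + 1) (i (n + 1)) -
          w (m + 1) (i (m + 1)) • Y (m + 1) (i (m + 1))‖ ≤
          M * (w (n + 1) (i (n + 1)) - w (m + 1) (i (m + 1))) := by
        intro n m hnm
        induction m, hnm using Nat.le_induction with
        | base => simp
        | succ m hm ih =>
          have h1 := (hstep (m + 1) (by omega)).2
          have h2 : w (n + 1) (i (n + 1)) • Y (n + 1) (i (n + 1)) -
              w (m + 1 + 1) (i (m + 1 + 1)) • Y (m + 1 + 1) (i (m + 1 + 1)) =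
              (w (n + 1) (i (n + 1)) • Y (n + 1) (i (n + 1)) -
              w (m + 1) (i (m + 1)) • Y (m + 1) (i (m + 1))) +
              (w (m + 1) (i (m + 1)) • Y (m + 1) (i (m + 1)) -
              w (m + 1 + 1) (i (m + 1 + 1)) • Y (m + 1 + 1) (i (m + 1 + 1))) := by abel
          rw [h2]
          refine (norm_add_le _ _).trans ?_
          linarith
      refine cauchySeq_of_le_tendsto_0 (fun n => M * (w (n + 1) (i (n + 1)) - ω) * 2) ?_ ?_
      · intro n m k hkn hkm
        have hle : ∀ m, ω ≤ w (m + 1) (i (m + 1)) := fun m => by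
          rw [hω]
          exact ciInf_le hbb m
        have h1 := hsum k n hkn
        have h2 := hsum k m hkm
        have h3 := mul_le_mul_of_nonneg_left (hle n) hM
        have h4 := mul_le_mul_of_nonneg_left (hle m) hM
        rw [dist_eq_norm]
        have h5 : w (n + 1) (i (n + 1)) • Y (n + 1) (i (n + 1)) -
            w (m + 1) (i (m + 1)) • Y (m + 1) (i (m + 1)) =
            (w (k + 1) (i (k + 1)) • Y (k + 1) (i (k + 1)) -
            w (m + 1) (i (m + 1)) • Y (m + 1) (i (m + 1))) -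
            (w (k + 1) (i (k + 1)) • Y (k + 1) (i (k + 1)) -
            w (n + 1) (i (n + 1)) • Y (n + 1) (i (n + 1))) := by abel
        rw [h5]
        refine (norm_sub_le _ _).trans ?_
        linarith
      · have := ((hlim.sub_const ω).const_mul M).mul_const 2
        simpa using this
    have hC2 : CauchySeq fun n => (w (n + 1) (i (n + 1)))⁻¹ := (hlim.inv₀ h0.ne').cauchySeq
    have hC3 : CauchySeq fun n => Y (n + 1) (i (n + 1)) := by
      obtain ⟨R, hR⟩ := hC1.isBounded_range.exists_norm_le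
      rw [Metric.cauchySeq_iff'] at hC1 hC2 ⊢
      intro ε hε
      have hR0 : 0 ≤ R := (norm_nonneg _).trans (hR _ ⟨0, rfl⟩)
      obtain ⟨n1, hn1⟩ := hC1 (ε * ω / 4) (by positivity)
      obtain ⟨n2, hn2⟩ := hC2 (ε / (4 * (R + 1))) (by positivity)
      have hinv : ∀ n, (w (n + 1) (i (n + 1)))⁻¹ ≤ ω⁻¹ := by
        intro n
        refine inv_anti₀ h0 ?_
        rw [hω]
        exact ciInf_le hbb n
      have hd : ∀ n m, ‖Y (n + 1) (i (n + 1)) - Y (m + 1) (i (m + 1))‖ ≤
          ω⁻¹ * ‖w (n + 1) (i (n + 1)) • Y (n + 1) (i (n + 1)) -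
            w (m + 1) (i (m + 1)) • Y (m + 1) (i (m + 1))‖ +
          |(w (n + 1) (i (n + 1)))⁻¹ - (w (m + 1) (i (m + 1)))⁻¹| * R := by
        intro n m
        have e1 : Y (n + 1) (i (n + 1)) - Y (m + 1) (i (m + 1)) =
            (w (n + 1) (i (n + 1)))⁻¹ • (w (n + 1) (i (n + 1)) • Y (n + 1) (i (n + 1)) -
            w (m + 1) (i (m + 1)) • Y (m + 1) (i (m + 1))) +
            ((w (n + 1) (i (n + 1)))⁻¹ - (w (m + 1) (i (m + 1)))⁻¹) •
              (w (m + 1) (i (m + 1)) • Y (m + 1) (i (m + 1))) := by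
          rw [smul_sub, smul_smul, inv_mul_cancel₀ (hpos n).ne', one_smul, sub_smul,
            smul_smul (w (m + 1) (i (m + 1)))⁻¹, inv_mul_cancel₀ (hpos m).ne', one_smul]
          abel
        rw [e1]
        refine (norm_add_le _ _).trans (add_le_add ?_ ?_)
        · rw [norm_smul, Real.norm_of_nonneg (inv_nonneg.2 (hpos n).le)]
          exact mul_le_mul_of_nonneg_right (hinv n) (norm_nonneg _)
        · rw [norm_smul, Real.norm_eq_abs]
          exact mul_le_mul_of_nonneg_left (hR _ ⟨m, rfl⟩) (abs_nonneg _)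
      refine ⟨max n1 n2, fun n hn => ?_⟩
      rw [dist_eq_norm]
      -- compare both with the index `n1`, `n2`
      have t1 := hn1 n ((le_max_left _ _).trans hn)
      have t2 := hn1 (max n1 n2) (le_max_left _ _)
      have t3 := hn2 n ((le_max_right _ _).trans hn)
      have t4 := hn2 (max n1 n2) (le_max_right _ _)
      have t5 : dist (w (n + 1) (i (n + 1)) • Y (n + 1) (i (n + 1)))
          (w (max n1 n2 + 1) (i (max n1 n2 + 1)) • Y (max n1 n2 + 1) (i (max n1 n2 + 1))) <
          ε * ω / 4 + ε * ω / 4 := (dist_triangle_right _ _ _).trans_lt (add_lt_add t1 t2)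
      have t6 : dist (w (n + 1) (i (n + 1)))⁻¹ (w (max n1 n2 + 1) (i (max n1 n2 + 1)))⁻¹ <
          ε / (4 * (R + 1)) + ε / (4 * (R + 1)) :=
        (dist_triangle_right _ _ _).trans_lt (add_lt_add t3 t4)
      rw [dist_eq_norm] at t5
      rw [Real.dist_eq] at t6
      refine (hd n (max n1 n2)).trans_lt ?_
      have t7 : ω⁻¹ * ‖w (n + 1) (i (n + 1)) • Y (n + 1) (i (n + 1)) -
          w (max n1 n2 + 1) (i (max n1 n2 + 1)) • Y (max n1 n2 + 1) (i (max n1 n2 + 1))‖ <
          ω⁻¹ * (ε * ω / 4 + ε * ω / 4) := mul_lt_mul_of_pos_left t5 (inv_pos.2 h0)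
      have t8 : |(w (n + 1) (i (n + 1)))⁻¹ - (w (max n1 n2 + 1) (i (max n1 n2 + 1)))⁻¹| * R ≤
          (ε / (4 * (R + 1)) + ε / (4 * (R + 1))) * R := mul_le_mul_of_nonneg_right t6.le hR0
      have t9 : ω⁻¹ * (ε * ω / 4 + ε * ω / 4) = ε / 2 := by
        field_simp
        ring
      have t10 : (ε / (4 * (R + 1)) + ε / (4 * (R + 1))) * R ≤ ε / 2 := by
        have e2 : (ε / (4 * (R + 1)) + ε / (4 * (R + 1))) * R = ε / 2 * (R / (R + 1)) := by
          field_simp
          ring
        rw [e2]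
        have e3 : R / (R + 1) ≤ 1 := by
          rw [div_le_one (by linarith)]
          linarith
        nlinarith
      linarith
    exact (cauchySeq_shift (u := fun n => Y n (i n)) 1).1 hC3

end

theorem crv : CrvStmt := by
  intro X _ _ _ W σ w Y M hW hB hYW hP
  have hM : 0 ≤ M := (norm_nonneg _).trans (hB.bdd 1 0 Nat.one_pos)
  have hlen : ∀ x : ℝ, Tendsto (fun n => w n (pt σ w x n)) atTop (𝓝 0) := fun x =>
    path_len hB _ (pt_path x) (hP _ (pt_path x))
  -- convergence
  have hconv : ∀ x : ℝ, ∃ v : X, Tendsto (fun n => gg σ w Y n x) atTop (𝓝 v) := by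
    intro x
    by_cases hx : 0 ≤ x ∧ x < 1
    · refine cauchySeq_tendsto_of_complete ?_
      rw [Metric.cauchySeq_iff']
      intro ε hε
      have h1 := (hlen x).const_mul (2 * M)
      rw [mul_zero] at h1
      obtain ⟨n0, hn0⟩ := Filter.eventually_atTop.1
        ((tendsto_order.1 h1).2 ε hε)
      refine ⟨max n0 1, fun v hv => ?_⟩
      obtain ⟨n, hn⟩ : ∃ n, n = max n0 1 := ⟨_, rfl⟩
      rw [← hn] at hv ⊢
      have hn1 : 1 ≤ n := by
        rw [hn]
        exact le_max_right _ _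
      obtain ⟨h2, h3⟩ := pt_mem hB hx.1 hx.2 hn1
      have h4 := gd_left hB hn1 (pt_lt (σ := σ) (w := w) x hn1)
      have h5 := gg_lip hB (hn1.trans hv) h2
      have h6 := gg_lip hB hn1 h2
      rw [gg_gd hB hn1 hv h4] at h5
      rw [dist_eq_norm]
      have h7 : gg σ w Y v x - gg σ w Y n x =
          (gg σ w Y v x - gg σ w Y n (al σ w (pt σ w x n))) -
          (gg σ w Y n x - gg σ w Y n (al σ w (pt σ w x n))) := by abel
      rw [h7]
      refine (norm_sub_le _ _).trans_lt ?_
      have h8 : M * (x - al σ w (pt σ w x n)) ≤ M * w n (pt σ w x n) :=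
        mul_le_mul_of_nonneg_left (by linarith) hM
      have h9 := hn0 n (by rw [hn]; exact le_max_left _ _)
      linarith
    · have hg : Gd σ w 1 x := by
        intro j hj
        have : j = 0 := by omega
        rw [this, al_zero, hB.one, zero_add]
        by_contra hc
        push Not at hc
        exact hx ⟨hc.1.le, hc.2⟩
      refine ⟨gg σ w Y 1 x, ?_⟩
      refine tendsto_const_nhds.congr' ?_
      filter_upwards [eventually_ge_atTop 1] with n hn
      exact (gg_gd hB le_rfl hn hg).symm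
  choose f hf using hconv
  have hfd : ∀ n x, 1 ≤ n → Gd σ w n x → f x = gg σ w Y n x := by
    intro n x hn hx
    refine tendsto_nhds_unique (hf x) ?_
    refine tendsto_const_nhds.congr' ?_
    filter_upwards [eventually_ge_atTop n] with v hv
    exact (gg_gd hB hn hv hx).symm
  refine ⟨f, ?_, ⟨M.toNNReal, ?_⟩, ?_⟩
  · intro x
    refine hW.mem_of_tendsto (hf x) (Filter.Eventually.of_forall fun n => ?_)
    unfold gg
    exact W.sum_mem fun i hi => W.smul_mem _ (hYW n i (mem_range.1 hi))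
  · refine LipschitzWith.of_dist_le_mul fun x y => ?_
    have key : ∀ x y : ℝ, x ≤ y → ‖f y - f x‖ ≤ M * (y - x) := by
      intro x y hxy
      refine le_of_tendsto ((hf y).sub (hf x)).norm ?_
      filter_upwards [eventually_ge_atTop 1] with n hn
      exact gg_lip hB hn hxy
    rw [Real.coe_toNNReal M hM, dist_eq_norm, Real.dist_eq]
    rcases le_total x y with h | h
    · rw [norm_sub_rev, abs_sub_comm, abs_of_nonneg (sub_nonneg.2 h)]
      exact key x y h
    · rw [abs_of_nonneg (sub_nonneg.2 h)]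
      exact key y x h
  · intro hae
    have hno : ∀ x : ℝ, 0 < x → x < 1 → ¬ DifferentiableAt ℝ f x := by
      intro x h0 h1 hdiff
      have hder := hdiff.hasDerivAt
      apply hP _ (pt_path (σ := σ) (w := w) x)
      have hten : Tendsto (fun n => Y n (pt σ w x n)) atTop (𝓝 (deriv f x)) := by
        rw [Metric.tendsto_atTop]
        intro ε hε
        obtain ⟨η, hη, hst⟩ := Pool.Agent.BC.H36.straddle hder (half_pos hε)
        obtain ⟨n0, hn0⟩ := Filter.eventually_atTop.1
          ((tendsto_order.1 (hlen x)).2 η hη)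
        refine ⟨max n0 1, fun n hn => ?_⟩
        have hn1 : 1 ≤ n := (le_max_right _ _).trans hn
        have hi := pt_lt (σ := σ) (w := w) x hn1
        obtain ⟨h2, h3⟩ := pt_mem hB h0.le h1 hn1
        have h4 := hn0 n ((le_max_left _ _).trans hn)
        have h5 := hst _ _ h2 h3.le (by linarith) (by linarith)
        rw [hfd n _ hn1 (gd_left hB hn1 hi), hfd n _ hn1 (gd_right hB hn1 hi), gg_diff hB hn1 hi,
          add_sub_cancel_left, ← smul_sub, norm_smul,
          Real.norm_of_nonneg (hB.pos n _ hi).le] at h5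
        rw [dist_eq_norm]
        have h6 : w n (pt σ w x n) * ‖Y n (pt σ w x n) - deriv f x‖ ≤
            w n (pt σ w x n) * (ε / 2) := by linarith
        have h7 := le_of_mul_le_mul_left h6 (hB.pos n _ hi)
        linarith
      exact hten.cauchySeq
    have h1 : volume (Set.Ioo (0 : ℝ) 1) = 0 := by
      rw [ae_iff] at hae
      refine measure_mono_null ?_ hae
      intro x hx
      exact hno x hx.1 hx.2
    rw [Real.volume_Ioo] at h1
    simp at h1

end Pool.Agent.NE.H65
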