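import Pool.Agent.NE.Stmts

/-!
# NE, module ENA: the theorem for ALPHA and BETA
-/

set_option autoImplicit false

open Finset Filter Topology

noncomputable section

namespace Pool.Agent.NE.H65

theorem ena (hRna : RnaStmt) (hLim : LimStmt) (hBin : BinStmt) (hPrj : PrjStmt) (hBsq : BsqStmt)
    (hNzb : NzbStmt) (hSpn : SpnStmt) (hDva : DvaStmt) (hFna : FnaStmt) : EnaStmt := by
  intro X Z _ _ _ _ _ Ψ Λ val Inv τ C M δ hτ hτ1 hδ hM
  obtain ⟨N, p, s, σ, θ, L, y, hT, hV, hR, hF⟩ := hRna X Z Ψ Λ val Inv τ C M δ hM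
  obtain ⟨Y, hY⟩ := hLim X Z Ψ N p s σ θ L y (max C 1) M τ hT hV hτ hτ1 hR
  have hB := hBin X Z Ψ N p s σ θ L M Y hT hV.bdd hY
  have hP := hPrj X Z Ψ N p s σ θ L y (max C 1) M Y hT hV (le_max_right _ _) hY
  have hK : (0 : ℝ) ≤ 8 * max C 1 := by
    have := le_max_right C (1 : ℝ)
    linarith
  have hQ := hBsq X σ _ Y M (8 * max C 1) hB hK hP
  have hN := hNzb X Z Ψ N p s σ θ L y (max C 1) M Y hT hV hY
  have hS := hSpn X σ _ Y M hB
  have hD := hDva X Z Ψ N p s σ θ L y (max C 1) M δ Y hT hV hY hδ hF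
  exact hFna X (bs σ Y) (8 * max C 1) σ _ Y M hN hQ hB
    (fun n i hi => Submodule.le_topologicalClosure _ (hS n i hi)) hD

end Pool.Agent.NE.H65
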