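import Pool.Agent.NE.Stmts

/-!
# NE, module RND: one round of returns
-/

set_option autoImplicit false

open Finset Filter Topology

noncomputable section

namespace Pool.Agent.NE.H65

open Classical in
/-- the leaves of the stage `t` which were not replaced before the stage `q` -/
def fr (N : ℕ → ℕ) (t q j : ℕ) : ℝ :=
  if j < nn N t ∧ ∀ r, t ≤ r → r < q → us r ≠ j then 1 else 0

theorem psi_mem {X Z : Type} [NormedAddCommGroup X] [NormedSpace ℝ X]
    [NormedAddCommGroup Z] [NormedSpace ℝ Z] (Ψ : X →ₗᵢ[ℝ] Z) (L : ℕ → Z) (n u : ℕ) (Q : Set X)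
    (z : X) (hz : z ∈ Submodule.span ℝ Q) : Ψ z ∈ Bs Ψ L n u Q := by
  have h := Submodule.apply_mem_span_image_of_mem_span (Ψ.toLinearMap) hz
  exact Submodule.span_mono Set.subset_union_right h

theorem sum_mem_bs {X Z : Type} [NormedAddCommGroup X] [NormedSpace ℝ X]
    [NormedAddCommGroup Z] [NormedSpace ℝ Z] (Ψ : X →ₗᵢ[ℝ] Z) (L : ℕ → Z) (n u : ℕ) (Q : Set X)
    (c : ℕ → ℝ) : ∑ j ∈ (range n).erase u, c j • L j ∈ Bs Ψ L n u Q := by
  refine Submodule.sum_mem _ fun j hj => Submodule.smul_mem _ _ (Submodule.subset_span ?_)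
  left
  refine ⟨j, ?_, rfl⟩
  rw [mem_erase, mem_range] at hj
  exact ⟨hj.2, hj.1⟩

theorem rnd (hSpl : SplStmt) (hNnb : NnbStmt) (hSps : SpsStmt) (hVec : VecStmt)
    (hEtp : EtpStmt) : RndStmt := by
  intro X Z _ _ _ _ Ψ N p s σ θ L y C M τ hT hV hτ hτ1 hR t₀ i t z d hi ht hd hz hS
  obtain ⟨hus, -, hsucc, hmono, -, -, hinf⟩ := hNnb N hT.two
  obtain ⟨-, hsp2, -, hsp4⟩ := hSps N p s σ θ hT
  obtain ⟨hvec, -⟩ := hVec N p s σ θ hT Z L
  obtain ⟨n, hn⟩ : ∃ n, n = nn N t₀ := ⟨_, rfl⟩
  rw [← hn] at hi hS
  obtain ⟨lam, hlam⟩ : ∃ lam : ℕ → ℕ → ℝ,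
    lam = fun q => sp N σ θ n q (fun k => if k = i then 1 else 0) := ⟨_, rfl⟩
  have hn1 : 1 ≤ n := by omega
  have hnq : ∀ q, t ≤ q → n ≤ nn N q := by
    intro q hq
    rw [hn]
    exact hmono (ht.trans hq)
  have hSJ : ∀ q, t ≤ q → J N L q (lam q) = S N σ θ L n q i := by
    intro q hq
    rw [hlam]
    simp only
    rw [hvec n q _ hn1 (hnq q hq), Finset.sum_eq_single i]
    · simp
    · intro k _ hk
      simp [hk]
    · intro h
      exact absurd (mem_range.2 hi) h
  have key : ∀ q, t ≤ q → ∃ z' ∈ Submodule.span ℝ (y '' Set.Iio q),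
      ‖J N L q (fun j => (1 - τ * fr N t q j) * lam q j) - Ψ z'‖ ≤
        (∏ r ∈ Ico t q, (1 + et r)) * ((1 - τ) * d + ∑ r ∈ Ico t q, et r) := by
    intro q hq
    induction q, hq using Nat.le_induction with
    | base =>
      refine ⟨(1 - τ) • z, Submodule.smul_mem _ _ hz, ?_⟩
      have h1 : J N L t (fun j => (1 - τ * fr N t t j) * lam t j) =
          (1 - τ) • J N L t (lam t) := by
        unfold J
        rw [smul_sum]
        refine sum_congr rfl fun j hj => ?_
        have h2 : fr N t t j = 1 := by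
          unfold fr
          rw [if_pos]
          exact ⟨mem_range.1 hj, fun r h1 h2 => absurd h2 (by omega)⟩
        beta_reduce
        rw [h2, smul_smul, mul_one]
      rw [h1, hSJ t le_rfl, map_smul, ← smul_sub, norm_smul, Real.norm_of_nonneg (by linarith)]
      simp only [Ico_self, prod_empty, sum_empty, one_mul, add_zero]
      exact mul_le_mul_of_nonneg_left hS (by linarith)
    | succ q hq ih =>
      obtain ⟨z', hz', hb⟩ := ih
      obtain ⟨x, hx⟩ : ∃ x, x = us q := ⟨_, rfl⟩
      have hxn : x < nn N q := by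
        rw [hx]
        exact hus q
      obtain ⟨hc1, hc2⟩ := hsp2 n q (fun k => if k = i then 1 else 0) hn1 (hnq q hq)
      have hlam1 : ∀ j, j < N q → lam (q + 1) (ix (nn N q) x j) = p q j * lam q x := by
        intro j hj
        rw [hlam, hx]
        exact hc1 j hj
      have hlam2 : ∀ k, k < nn N q → k ≠ x → lam (q + 1) k = lam q k := by
        intro k hk hkx
        rw [hlam]
        rw [hx] at hkx
        exact hc2 k hk hkx
      have hf1 : ∀ j, j < N q → fr N t (q + 1) (ix (nn N q) x j) = 0 := by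
        intro j _
        unfold fr
        rw [if_neg]
        rintro ⟨h1, h2⟩
        unfold ix at h1 h2
        by_cases hj0 : j = 0
        · rw [if_pos hj0] at h2
          exact h2 q hq (Nat.lt_succ_self q) hx.symm
        · rw [if_neg hj0] at h1
          have := hmono hq
          omega
      have hf2 : ∀ k, k ≠ x → fr N t (q + 1) k = fr N t q k := by
        intro k hk
        unfold fr
        congr 1
        apply propext
        constructor
        · rintro ⟨h1, h2⟩
          exact ⟨h1, fun r hr1 hr2 => h2 r hr1 (by omega)⟩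
        · rintro ⟨h1, h2⟩
          refine ⟨h1, fun r hr1 hr2 => ?_⟩
          rcases Nat.lt_succ_iff_lt_or_eq.1 hr2 with h | h
          · exact h2 r hr1 h
          · rw [h, ← hx]
            exact hk.symm
      obtain ⟨c, hc⟩ : ∃ c : ℕ → ℝ, c = fun j => (1 - τ * fr N t q j) * lam q j := ⟨_, rfl⟩
      obtain ⟨b0, hb0⟩ : ∃ b0 : Z, b0 = ∑ j ∈ (range (nn N q)).erase x, c j • L q j := ⟨_, rfl⟩
      have hJ1 : J N L q c = b0 + c x • L q x := by
        unfold J
        rw [hb0, add_comm, Finset.add_sum_erase (range (nn N q)) (fun j => c j • L q j)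
          (mem_range.2 hxn)]
      have hJ2 : J N L (q + 1) (fun j => (1 - τ * fr N t (q + 1) j) * lam (q + 1) j) =
          b0 + lam q x • ∑ j ∈ range (N q), p q j • L (q + 1) (ix (nn N q) x j) := by
        unfold J
        rw [hsucc q, hSpl Z _ (nn N q) x (N q) hxn (by have := hT.two q; omega), hb0]
        congr 1
        · refine sum_congr rfl fun j hj => ?_
          rw [mem_erase, mem_range] at hj
          beta_reduce
          rw [hf2 j hj.1, hlam2 j hj.2 hj.1, hc, hV.keep q j hj.2 (by rw [← hx]; exact hj.1)]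
        · rw [smul_sum]
          refine sum_congr rfl fun j hj => ?_
          rw [mem_range] at hj
          beta_reduce
          rw [hf1 j hj, hlam1 j hj, mul_zero, sub_zero, one_mul, smul_smul, mul_comm]
      have hbs : b0 - Ψ z' ∈ Bs Ψ (L q) (nn N q) (us q) (y '' Set.Iio q) := by
        refine Submodule.sub_mem _ ?_ (psi_mem Ψ _ _ _ _ z' hz')
        rw [hb0, hx]
        exact sum_mem_bs Ψ _ _ _ _ c
      have hlx : 0 ≤ lam q x ∧ lam q x ≤ 1 := by
        rw [hlam]
        exact hsp4 n q i x hn1 (hnq q hq) hi hxn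
      have hep : 0 < et q := by
        unfold et
        positivity
      have hprod : (0 : ℝ) ≤ ∏ r ∈ Ico t q, (1 + et r) := by
        refine prod_nonneg fun r _ => ?_
        unfold et
        positivity
      have hsum : (0 : ℝ) ≤ ∑ r ∈ Ico t q, et r := by
        refine sum_nonneg fun r _ => ?_
        unfold et
        positivity
      have hprod1 : (1 : ℝ) ≤ ∏ r ∈ Ico t q, (1 + et r) := (hEtp t q).2.2
      have hspan : Submodule.span ℝ (y '' Set.Iio q) ≤ Submodule.span ℝ (y '' Set.Iio (q + 1)) :=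
        Submodule.span_mono (Set.image_mono (Set.Iio_subset_Iio (Nat.le_succ q)))
      rw [← hc] at hb
      rw [prod_Ico_succ_top hq, sum_Ico_succ_top hq]
      obtain ⟨P, hP⟩ : ∃ P, P = ∏ r ∈ Ico t q, (1 + et r) := ⟨_, rfl⟩
      obtain ⟨E, hE⟩ : ∃ E, E = (1 - τ) * d + ∑ r ∈ Ico t q, et r := ⟨_, rfl⟩
      have hE0 : 0 ≤ E := by
        rw [hE]
        have := mul_nonneg (sub_nonneg.2 hτ1) hd
        linarith
      rw [← hP, ← hE] at hb
      rw [← hP] at hprod hprod1
      have hgoal : (1 + et q) * (P * E) + et q ≤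
          (∏ r ∈ Ico t q, (1 + et r)) * (1 + et q) *
            ((1 - τ) * d + (∑ r ∈ Ico t q, et r + et q)) := by
        rw [← hP, ← add_assoc, ← hE]
        have h1 : 0 ≤ (P * (1 + et q) - 1) * et q := by
          refine mul_nonneg ?_ hep.le
          nlinarith
        nlinarith
      by_cases hfx : fr N t q x = 0
      · refine ⟨z', hspan hz', ?_⟩
        have hcx : c x = lam q x := by
          rw [hc]
          simp only
          rw [hfx]
          ring
        have hu := (hV.step q).up _ hbs (lam q x)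
        rw [← hx] at hu
        have e1 : J N L (q + 1) (fun j => (1 - τ * fr N t (q + 1) j) * lam (q + 1) j) - Ψ z' =
            b0 - Ψ z' + lam q x • ∑ j ∈ range (N q), p q j • L (q + 1) (ix (nn N q) x j) := by
          rw [hJ2]
          abel
        have e2 : b0 - Ψ z' + lam q x • L q x = J N L q c - Ψ z' := by
          rw [hJ1, hcx]
          abel
        rw [e1]
        rw [e2] at hu
        refine hu.trans (le_trans ?_ hgoal)
        have := mul_le_mul_of_nonneg_left hb (by linarith : 0 ≤ 1 + et q)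
        linarith
      · have hfx1 : fr N t q x = 1 := by
          unfold fr at hfx ⊢
          split_ifs at hfx ⊢ with h
          · rfl
          · exact absurd rfl hfx
        refine ⟨z' + (τ * lam q x) • y q, ?_, ?_⟩
        · refine Submodule.add_mem _ (hspan hz') (Submodule.smul_mem _ _
            (Submodule.subset_span ⟨q, ?_, rfl⟩))
          exact Nat.lt_succ_self q
        have hcx : c x = lam q x * (1 - τ) := by
          rw [hc]
          simp only
          rw [hfx1]
          ring
        have hu := hR q _ hbs (lam q x)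
        rw [← hx] at hu
        have e1 : J N L (q + 1) (fun j => (1 - τ * fr N t (q + 1) j) * lam (q + 1) j) -
            Ψ (z' + (τ * lam q x) • y q) =
            b0 - Ψ z' + lam q x • (∑ j ∈ range (N q), p q j • L (q + 1) (ix (nn N q) x j) -
              τ • Ψ (y q)) := by
          rw [hJ2, map_add, map_smul, smul_sub, smul_smul, mul_comm τ]
          abel
        have e2 : b0 - Ψ z' + (lam q x * (1 - τ)) • L q x = J N L q c - Ψ z' := by
          rw [hJ1, hcx]
          abel
        rw [e1]
        rw [e2, abs_of_nonneg hlx.1] at hu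
        refine hu.trans (le_trans ?_ hgoal)
        have h1 := mul_le_mul_of_nonneg_left hb (by linarith : 0 ≤ 1 + et q)
        have h2 := mul_le_mul_of_nonneg_left hlx.2 hep.le
        linarith
  -- the stage at which all the leaves of the stage `t` have been replaced
  choose g hg1 hg2 using fun k => hinf k t
  obtain ⟨T, hTt, hTg⟩ : ∃ T, t ≤ T ∧ ∀ j, j < nn N t → g j < T := by
    refine ⟨t + (range (nn N t)).sup g + 1, by omega, fun j hj => ?_⟩
    have := Finset.le_sup (f := g) (mem_range.2 hj)
    omega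
  obtain ⟨z', hz', hb⟩ := key T hTt
  refine ⟨T, hTt, z', hz', ?_⟩
  rw [← hn]
  have hf0 : ∀ j, fr N t T j = 0 := by
    intro j
    unfold fr
    rw [if_neg]
    rintro ⟨h1, h2⟩
    exact h2 (g j) (hg1 j) (hTg j h1) (hg2 j)
  have e1 : J N L T (fun j => (1 - τ * fr N t T j) * lam T j) = S N σ θ L n T i := by
    rw [← hSJ T hTt]
    unfold J
    refine sum_congr rfl fun j _ => ?_
    beta_reduce
    rw [hf0 j, mul_zero, sub_zero, one_mul]
  rw [e1] at hb
  refine hb.trans ?_
  obtain ⟨h1, h2, h3⟩ := hEtp t T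
  have h4 : 0 ≤ (1 - τ) * d := mul_nonneg (sub_nonneg.2 hτ1) hd
  have h5 : (0 : ℝ) ≤ ∑ r ∈ Ico t T, et r := by
    refine sum_nonneg fun r _ => ?_
    unfold et
    positivity
  refine mul_le_mul h2 (by linarith) (by linarith) (by positivity)

end Pool.Agent.NE.H65
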