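import Pool.Agent.Helper82_NE.ANC
import Pool.Agent.Helper53_NLE.SPL
import Pool.Agent.Helper10_NLE.NNB
import Pool.Agent.Helper40_NE.TRE
import Pool.Agent.Helper53_NLE.TRF
import Pool.Agent.Helper53_NLE.LOC
import Pool.Agent.Helper19_NE.CLC
import Pool.Agent.Helper62_NE.MSI
import Pool.Agent.Helper81_NE.SPS
import Pool.Agent.Helper10_NLE.VEC
import Pool.Agent.Helper83_NE.SCO
import Pool.Agent.Helper83_NE.ETP
import Pool.Agent.Helper53_NLE.LOS
import Pool.Agent.Helper81_NE.UPS
import Pool.Agent.Helper53_NLE.INS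
import Pool.Agent.Helper65_NE.RND
import Pool.Agent.Helper81_NE.CVM
import Pool.Agent.Helper2_NLE.BIN
import Pool.Agent.Helper31_NE.YSP
import Pool.Agent.Helper89_NE.CMP
import Pool.Agent.Helper53_NLE.PRJ
import Pool.Agent.Helper87_NE.DVA
import Pool.Agent.Helper89_NE.BSQ
import Pool.Agent.Helper89_NE.SPN
import Pool.Agent.Helper65_NE.CRV
import Pool.Agent.Helper17_NE.FNA
import Pool.Agent.Helper89_NE.RNA
import Pool.Agent.Helper65_NE.ENA
import Pool.Agent.Helper55_NLE.NZB
import Pool.Agent.Helper65_NE.LIM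

/-!
# NE: the engine, assembled
-/

set_option autoImplicit false

open Finset Filter Topology

noncomputable section

namespace Pool.Agent.NE.H65

theorem trfA : TrfStmt := H53.trf H10.nnb
theorem locA : LocStmt := H53.loc H82.ancA H10.nnb
theorem clcA : ClcStmt := H19.clc H82.ancA H53.spl H10.nnb trfA locA
theorem msiA : MsiStmt := H62.msi H82.ancA H10.nnb trfA clcA
theorem spsA : SpsStmt := H81.sps H82.ancA H10.nnb trfA locA msiA
theorem vecA : VecStmt := H10.vec H82.ancA trfA
theorem scoA : ScoStmt := H83.sco H82.ancA H10.nnb trfA msiA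
theorem losA : LosStmt := H53.los H10.nnb clcA H83.etp
theorem upsA : UpsStmt := H81.ups H53.spl H10.nnb spsA
theorem rndA : RndStmt := rnd H53.spl H10.nnb spsA vecA H83.etp
theorem cvmA : CvmStmt := H81.cvm H10.nnb trfA msiA rndA
theorem binA : BinStmt := H2.bin H82.ancA H10.nnb trfA msiA
theorem yspA : YspStmt := H31.ysp H82.ancA trfA scoA
theorem cmpA : CmpStmt := H89.cmp H10.nnb vecA spsA H83.etp losA upsA
theorem prjA : PrjStmt := H53.prj H82.ancA H10.nnb clcA H83.etp spsA cmpA yspA
theorem dvaA : DvaStmt := H87.dva H10.nnb vecA yspA cmpA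
theorem bsqA : BsqStmt := H89.bsq H82.ancA
theorem fnaA : FnaStmt := H17.fna crv
theorem rnaA : RnaStmt := H89.rna H10.nnb (H40.tre H10.nnb)

theorem nzbA : NzbStmt := H55.nzb H82.ancA H53.spl H10.nnb trfA spsA cmpA yspA

theorem limA : LimStmt := lim H10.nnb vecA scoA upsA cvmA H83.etp

/-- **the engine**: a machine for ALPHA or BETA gives a subspace with a Schauder basis which fails
the RNP -/
theorem enaA : EnaStmt :=
  ena rnaA limA binA prjA bsqA nzbA H89.spn dvaA fnaA

end Pool.Agent.NE.H65
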