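import Pool.Agent.NE.Stmts

/-!
# NE, module LIM: the values of the nodes converge
-/

set_option autoImplicit false

open Finset Filter Topology

noncomputable section

namespace Pool.Agent.NE.H65

theorem lim_of_close {X Z : Type} [NormedAddCommGroup X] [NormedSpace ℝ X] [CompleteSpace X]
    [NormedAddCommGroup Z] [NormedSpace ℝ Z] (Ψ : X →ₗᵢ[ℝ] Z) (u : ℕ → Z)
    (h : ∀ ε : ℝ, 0 < ε → ∃ (x : X) (T₀ : ℕ), ∀ T, T₀ ≤ T → ‖u T - Ψ x‖ ≤ ε) :
    ∃ x : X, Tendsto u atTop (𝓝 (Ψ x)) := by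
  choose x T₀ hx using fun k : ℕ => h (1 / ((k : ℝ) + 1)) (by positivity)
  have hC : CauchySeq x := by
    refine cauchySeq_of_le_tendsto_0 (fun n : ℕ => 2 * (1 / ((n : ℝ) + 1))) ?_ ?_
    · intro n m k hkn hkm
      have h1 := hx n (max (T₀ n) (T₀ m)) (le_max_left _ _)
      have h2 := hx m (max (T₀ n) (T₀ m)) (le_max_right _ _)
      have h3 : 1 / ((n : ℝ) + 1) ≤ 1 / ((k : ℝ) + 1) := by
        refine one_div_le_one_div_of_le (by positivity) ?_
        have : (k : ℝ) ≤ n := by exact_mod_cast hkn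
        linarith
      have h4 : 1 / ((m : ℝ) + 1) ≤ 1 / ((k : ℝ) + 1) := by
        refine one_div_le_one_div_of_le (by positivity) ?_
        have : (k : ℝ) ≤ m := by exact_mod_cast hkm
        linarith
      rw [dist_eq_norm, ← Ψ.norm_map, map_sub]
      have h5 : Ψ (x n) - Ψ (x m) = (u (max (T₀ n) (T₀ m)) - Ψ (x m)) -
          (u (max (T₀ n) (T₀ m)) - Ψ (x n)) := by abel
      rw [h5]
      refine (norm_sub_le _ _).trans ?_
      linarith
    · have := (tendsto_one_div_add_atTop_nhds_zero_nat (𝕜 := ℝ)).const_mul 2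
      simpa using this
  obtain ⟨a, ha⟩ := cauchySeq_tendsto_of_complete hC
  refine ⟨a, ?_⟩
  rw [Metric.tendsto_atTop]
  intro ε hε
  obtain ⟨k1, hk1⟩ := (Metric.tendsto_atTop.1 ha) (ε / 2) (half_pos hε)
  obtain ⟨k2, hk2⟩ := exists_nat_one_div_lt (half_pos hε)
  refine ⟨T₀ (max k1 k2), fun T hT => ?_⟩
  have h1 := hx (max k1 k2) T hT
  have h2 := hk1 (max k1 k2) (le_max_left _ _)
  have h3 : 1 / (((max k1 k2 : ℕ) : ℝ) + 1) ≤ 1 / ((k2 : ℝ) + 1) := by
    refine one_div_le_one_div_of_le (by positivity) ?_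
    have : (k2 : ℝ) ≤ (max k1 k2 : ℕ) := by exact_mod_cast le_max_right k1 k2
    linarith
  rw [dist_eq_norm] at h2 ⊢
  rw [← Ψ.norm_map, map_sub] at h2
  have h5 : u T - Ψ a = (u T - Ψ (x (max k1 k2))) + (Ψ (x (max k1 k2)) - Ψ a) := by abel
  rw [h5]
  refine (norm_add_le _ _).trans_lt ?_
  linarith

theorem lim (hNnb : NnbStmt) (hVec : VecStmt) (hSco : ScoStmt) (hUps : UpsStmt)
    (hCvm : CvmStmt) (hEtp : EtpStmt) : LimStmt := by
  intro X Z _ _ _ _ _ Ψ N p s σ θ L y C M τ hT hV hτ hτ1 hR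
  obtain ⟨-, hnt, -, hmono, -, -, -⟩ := hNnb N hT.two
  obtain ⟨hvec, -⟩ := hVec N p s σ θ hT Z L
  have hn1 : ∀ t, 1 ≤ nn N t := fun t => by
    have := hnt t
    omega
  have hSJ : ∀ t T i, i < nn N t → t ≤ T →
      J N L T (sp N σ θ (nn N t) T (fun k => if k = i then 1 else 0)) =
        S N σ θ L (nn N t) T i := by
    intro t T i hi htT
    rw [hvec (nn N t) T _ (hn1 t) (hmono htT), Finset.sum_eq_single i]
    · simp
    · intro k _ hk
      simp [hk]
    · intro h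
      exact absurd (mem_range.2 hi) h
  have hblock : ∀ t i, i < nn N t →
      ∃ x : X, Tendsto (fun T => S N σ θ L (nn N t) T i) atTop (𝓝 (Ψ x)) := by
    intro t i hi
    refine lim_of_close Ψ _ fun ε hε => ?_
    obtain ⟨T₀, hT₀, z, hz, hb⟩ := hCvm X Z Ψ N p s σ θ L y C M τ hT hV hτ hτ1 hR t i (ε / 2) hi
      (half_pos hε)
    refine ⟨z, T₀, fun T hTT => ?_⟩
    have h1 := hUps X Z Ψ N p s σ θ L y C M hT hV (nn N t) T₀ T
      (fun k => if k = i then 1 else 0) (-z) (hn1 t) (hmono hT₀) hTT (Submodule.neg_mem _ hz)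
    rw [hSJ t T i hi (hT₀.trans hTT), hSJ t T₀ i hi hT₀, map_neg, ← sub_eq_add_neg,
      ← sub_eq_add_neg] at h1
    refine h1.trans ?_
    obtain ⟨-, h2, h3⟩ := hEtp T₀ T
    have h4 : ((1 : ℝ) / 2) ^ (T₀ + 1) ≤ 1 := pow_le_one₀ (by norm_num) (by norm_num)
    have h5 : (∏ i ∈ Ico T₀ T, (1 + et i)) ≤ 2 := by linarith
    calc (∏ i ∈ Ico T₀ T, (1 + et i)) * ‖S N σ θ L (nn N t) T₀ i - Ψ z‖
        ≤ 2 * (ε / 2) := mul_le_mul h5 hb (norm_nonneg _) (by norm_num)
      _ = ε := by ring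
  have hall : ∀ n i, ∃ x : X, i < n → Tendsto (fun T => S N σ θ L n T i) atTop (𝓝 (Ψ x)) := by
    intro n i
    by_cases hi : i < n
    · have hn : 1 ≤ n := by omega
      have hnn : n ≤ nn N n := by
        have := hnt n
        omega
      choose! x hx using hblock n
      refine ⟨∑ k ∈ range (nn N n) with anc σ n k = i, (θ n k / ms N σ θ n n i) • x k,
        fun _ => ?_⟩
      have h1 : Tendsto (fun T => ∑ k ∈ range (nn N n) with anc σ n k = i,
          (θ n k / ms N σ θ n n i) • S N σ θ L (nn N n) T k) atTop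
          (𝓝 (∑ k ∈ range (nn N n) with anc σ n k = i, (θ n k / ms N σ θ n n i) • Ψ (x k))) := by
        refine tendsto_finsetSum _ fun k hk => ?_
        rw [mem_filter, mem_range] at hk
        exact (hx k hk.1).const_smul _
      have h2 : Ψ (∑ k ∈ range (nn N n) with anc σ n k = i, (θ n k / ms N σ θ n n i) • x k) =
          ∑ k ∈ range (nn N n) with anc σ n k = i, (θ n k / ms N σ θ n n i) • Ψ (x k) := by
        rw [map_sum]
        refine sum_congr rfl fun k _ => ?_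
        rw [map_smul]
      rw [h2]
      refine h1.congr' ?_
      filter_upwards [eventually_ge_atTop n] with T hT'
      exact (hSco N p s σ θ hT Z L n n T i hn hnn hT' hi).symm
    · exact ⟨0, fun h => absurd h hi⟩
  choose Y hY using hall
  exact ⟨Y, hY⟩

end Pool.Agent.NE.H65
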